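import Pool.Agent.H248.HG.Lower
import Pool.Agent.H248.HG.Upper
import Pool.Agent.H248.HG.Small
import Pool.Agent.H248.HB.LowerE

/-!
# The Turán exponents of `K(s_1, …, s_r, t)` for all `t > (s_1 ⋯ s_r - 1)!`

`K(s_1, …, s_r, t)` is the complete `(r + 1)`-partite `(r + 1)`-graph with classes of `s_1, …, s_r, t` vertices,
`s = s_1 ⋯ s_r ≥ 2`. By Erdős its Turán number is `O(n ^ (r + 1 - 1 / s))`. We show that the exponent is sharp for
all `t > (s - 1)!`, as for graphs (`r = 1`, Alon, Rónyai and Szabó), whatever `r` is; so the exponent `ε*` of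
`K(k, …, k, t)` is the bound `1 / k ^ r` of Erdős for these `t`. If `t > (s - 1)! r ^ (s - 1)` the order is attained, with
the right dependence on `t`: the Turán number is between `c t ^ (1 / s) n ^ (r + 1 - 1 / s)` and
`C t ^ (1 / s) n ^ (r + 1 - 1 / s)` for all these `t` and all `n ≥ t`, `c, C > 0` depend only on `r` and the `s_i`.

Construction for the exponent. Let `p` be a prime, `K` the field with `p ^ (s - 1)` elements, `N` the norm to `F_p`, and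
let `A ⊆ K` be a set of `|K| ^ (1 - o(1))` elements in which `y_1 + ⋯ + y_r = r y_0` has only the solutions
`y_j = y_0` (Behrend). The vertices of each class are the pairs `(x, z)`, `x ∈ K`, `z ∈ F_p^*`, and
`(x_0, z_0), …, (x_r, z_r)` is an edge if `N(x_0 + ⋯ + x_r) = z_0 ⋯ z_r` and all the sums of `r` of the `x_i` are in `A`.
In a copy of `K(s_1, …, s_r, t)` the `s` sums `w = ∑ x_i` over the transversals of the classes of `s_1, …, s_r` vertices
are different: if `∑ x_i = ∑ x_i'` then the sums `w + x_i' - x_i` are in `A` and their sum is `r w`. So the `t` vertices of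
the last class satisfy `s` norm equations `N(x + w) = c_w z` with different `w`, and `t ≤ (s - 1)!`.

Construction for the order. Let `K` be a field with `q ^ (s - 1)` elements, `N` the norm to the field with `q`
elements, `L / K` the extension of degree `r`, and `ω_0, …, ω_r ∈ L` such that any `r` of them are a basis of `L / K`. Put
`f(x_0, …, x_r) = N_{L/K}(x_0 ω_0 + ⋯ + x_r ω_r)`; `(x_0, z_0), …, (x_r, z_r)` is an edge if
`N(f(x_0, …, x_r)) = z_0 ⋯ z_r`. As a function of one of the variables, `f` is a polynomial of degree `r` which up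
to conjugation over `K` determines the other variables, and these polynomials are coprime if they are not equal.
Conjugate vectors are separated by a colouring: only the edges of the most popular colour vector are kept. A
copy of `K(s_1, …, s_r, t)` gives `s` equations `N(P_i(x)) = a_i b(x)` with pairwise coprime polynomials of degree `r`,
which have at most `(s - 1)! r ^ (s - 1)` common solutions `x ∈ K` (as proved for
`MP_7682b0_co.PolynomialNormGraphs`). For large `t` the elements of `F_q^*` are replaced by intervals of exponents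
of a primitive element.
-/

set_option autoImplicit false

namespace Pool.Agent.Results.MP_ffb1b1_co.NormHypergraphs

/-- The `(r + 1)`-graph with the set of edges `H` contains a copy of the complete `(r + 1)`-partite
`(r + 1)`-graph with classes of sizes `d 0, …, d r`: there are disjoint sets `A i` of `d i` vertices such that
all sets `{a 0, …, a r}`, `a i ∈ A i`, are edges. -/
def Copy {n r : ℕ} (H : Finset (Finset (Fin n))) (d : Fin (r + 1) → ℕ) : Prop :=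
  ∃ A : Fin (r + 1) → Finset (Fin n), (∀ i, (A i).card = d i) ∧
    (∀ i j, i ≠ j → Disjoint (A i) (A j)) ∧
    ∀ a : Fin (r + 1) → Fin n, (∀ i, a i ∈ A i) → Finset.univ.image a ∈ H

open Classical in
/-- The Turán number: the largest number of edges of an `(r + 1)`-graph on `n` vertices without a copy of the
complete `(r + 1)`-partite `(r + 1)`-graph with classes of sizes `d i`. -/
noncomputable def ex (n : ℕ) {r : ℕ} (d : Fin (r + 1) → ℕ) : ℕ :=
  ((((Finset.univ : Finset (Fin n)).powersetCard (r + 1)).powerset).filter fun H => ¬ Copy H d).sup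
    Finset.card

/-- For some `c > 0` and all `n ≥ 1`, every `(r + 1)`-graph on `n` vertices with at least
`c n ^ (r + 1 - ε)` edges contains the complete `(r + 1)`-partite `(r + 1)`-graph with classes of sizes `d i`. -/
def Forces {r : ℕ} (d : Fin (r + 1) → ℕ) (ε : ℝ) : Prop :=
  ∃ c : ℝ, 0 < c ∧ ∀ n : ℕ, 1 ≤ n → ∀ H : Finset (Finset (Fin n)), (∀ e ∈ H, e.card = r + 1) →
    c * (n : ℝ) ^ ((r : ℝ) + 1 - ε) ≤ H.card → Copy H d

/-- The exponent `ε*`. -/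
noncomputable def epsStar {r : ℕ} (d : Fin (r + 1) → ℕ) : ℝ := sSup {ε : ℝ | 0 < ε ∧ Forces d ε}

/-- The sizes `σ 0, …, σ (r - 1), t`. -/
def sizes {r : ℕ} (σ : Fin r → ℕ) (t : ℕ) : Fin (r + 1) → ℕ := Fin.snoc (α := fun _ => ℕ) σ t

theorem le_ex {n r : ℕ} {d : Fin (r + 1) → ℕ} {H : Finset (Finset (Fin n))}
    (h1 : ∀ e ∈ H, e.card = r + 1) (h2 : ¬ Copy H d) : H.card ≤ ex n d := by
  classical
  unfold ex
  refine Finset.le_sup (f := Finset.card) (Finset.mem_filter.2 ⟨Finset.mem_powerset.2 ?_, h2⟩)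
  intro e he
  exact Finset.mem_powersetCard.2 ⟨Finset.subset_univ _, h1 e he⟩

theorem ex_le {n r : ℕ} {d : Fin (r + 1) → ℕ} {X : ℝ} (hX : 0 ≤ X)
    (h : ∀ H : Finset (Finset (Fin n)), (∀ e ∈ H, e.card = r + 1) → ¬ Copy H d → (H.card : ℝ) ≤ X) :
    (ex n d : ℝ) ≤ X := by
  classical
  have h1 : ex n d ≤ ⌊X⌋₊ := by
    unfold ex
    refine Finset.sup_le fun H hH => Nat.le_floor ?_
    obtain ⟨h2, h3⟩ := Finset.mem_filter.1 hH
    exact h H (fun e he => (Finset.mem_powersetCard.1 (Finset.mem_powerset.1 h2 he)).2) h3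
  exact (Nat.cast_le.2 h1).trans (Nat.floor_le hX)

theorem r_le_threshold (r s : ℕ) (hr : 1 ≤ r) (hs : 2 ≤ s) : r ≤ (s - 1).factorial * r ^ (s - 1) := by
  have h1 : r ^ 1 ≤ r ^ (s - 1) := Nat.pow_le_pow_right hr (by omega)
  have h2 : 1 * r ^ (s - 1) ≤ (s - 1).factorial * r ^ (s - 1) :=
    Nat.mul_le_mul_right _ (Nat.factorial_pos _)
  rw [pow_one] at h1
  rw [one_mul] at h2
  exact h1.trans h2

theorem bounds (r : ℕ) (hr : 1 ≤ r) (σ : Fin r → ℕ) (hσ : 2 ≤ ∏ i, σ i) :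
    ∃ c C : ℝ, 0 < c ∧ 0 < C ∧
      (∀ t n : ℕ, 1 ≤ t → 1 ≤ n → ∀ H : Finset (Finset (Fin n)), (∀ e ∈ H, e.card = r + 1) →
        ¬ Copy H (sizes σ t) → (H.card : ℝ) ≤ C * (t : ℝ) ^ (1 / ((∏ i, σ i : ℕ) : ℝ)) *
          (n : ℝ) ^ ((r : ℝ) + 1 - 1 / ((∏ i, σ i : ℕ) : ℝ))) ∧
      (∀ t n : ℕ, ((∏ i, σ i) - 1).factorial * r ^ ((∏ i, σ i) - 1) < t → t ≤ n →
        ∃ H : Finset (Finset (Fin n)), (∀ e ∈ H, e.card = r + 1) ∧ ¬ Copy H (sizes σ t) ∧
          c * (t : ℝ) ^ (1 / ((∏ i, σ i : ℕ) : ℝ)) *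
            (n : ℝ) ^ ((r : ℝ) + 1 - 1 / ((∏ i, σ i : ℕ) : ℝ)) ≤ H.card) := by
  have hσ1 : ∀ i, 1 ≤ σ i := by
    intro i
    refine Nat.pos_of_ne_zero fun h0 => ?_
    have h1 : ∏ i, σ i = 0 := Finset.prod_eq_zero (Finset.mem_univ i) h0
    omega
  obtain ⟨C, hC, hup⟩ := Pool.Agent.H248.HG.upper_bound r hr σ hσ1
  obtain ⟨c, hc, N, hlow⟩ := Pool.Agent.H248.HG.lower_bound r hr σ hσ
  obtain ⟨c', hc', hsm⟩ := Pool.Agent.H248.HG.small_n r hr σ hσ N
  refine ⟨min c c', C, lt_min hc hc', hC, hup, fun t n ht htn => ?_⟩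
  have hX : (0 : ℝ) ≤ (t : ℝ) ^ (1 / ((∏ i, σ i : ℕ) : ℝ)) *
      (n : ℝ) ^ ((r : ℝ) + 1 - 1 / ((∏ i, σ i : ℕ) : ℝ)) := by positivity
  rcases le_total (N * t) n with h | h
  · obtain ⟨H, h1, h2, h3⟩ := hlow t n ht h
    refine ⟨H, h1, h2, le_trans ?_ h3⟩
    rw [mul_assoc, mul_assoc]
    exact mul_le_mul_of_nonneg_right (min_le_left _ _) hX
  · obtain ⟨H, h1, h2, h3⟩ := hsm t n (lt_of_le_of_lt (r_le_threshold r _ hr hσ) ht) htn h
    refine ⟨H, h1, h2, le_trans ?_ h3⟩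
    rw [mul_assoc, mul_assoc]
    exact mul_le_mul_of_nonneg_right (min_le_right _ _) hX

/-- the exponent of the Turán number from below -/
theorem lower_eta (r : ℕ) (hr : 1 ≤ r) (σ : Fin r → ℕ) (hσ : 2 ≤ ∏ i, σ i) (t : ℕ)
    (ht : ((∏ i, σ i) - 1).factorial < t) (η : ℝ) (hη : 0 < η) (D : ℝ) (_hD : 0 < D) :
    ∀ᶠ n : ℕ in Filter.atTop, ∃ H : Finset (Finset (Fin n)), (∀ e ∈ H, e.card = r + 1) ∧
      ¬ Copy H (sizes σ t) ∧
      D * (n : ℝ) ^ ((r : ℝ) + 1 - 1 / ((∏ i, σ i : ℕ) : ℝ) - η) ≤ H.card := by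
  obtain ⟨c, hc, n₀, h⟩ := Pool.Agent.H248.HB.lower_exp r hr σ hσ t ht (η / 2) (by linarith)
  have hlim : Filter.Tendsto (fun n : ℕ => (n : ℝ) ^ (η / 2)) Filter.atTop Filter.atTop :=
    (tendsto_rpow_atTop (by linarith)).comp tendsto_natCast_atTop_atTop
  filter_upwards [hlim.eventually_ge_atTop (D / c), Filter.eventually_ge_atTop n₀,
    Filter.eventually_ge_atTop 1] with n hn1 hn2 hn3
  obtain ⟨H, h1, h2, h3⟩ := h n hn2
  refine ⟨H, h1, h2, le_trans ?_ h3⟩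
  have hn0 : (0 : ℝ) < n := by exact_mod_cast hn3
  obtain ⟨ρ, hρ⟩ : ∃ ρ : ℝ, ρ = (r : ℝ) + 1 - 1 / ((∏ i, σ i : ℕ) : ℝ) := ⟨_, rfl⟩
  rw [← hρ]
  have h4 : (n : ℝ) ^ (ρ - η / 2) = (n : ℝ) ^ (ρ - η) * (n : ℝ) ^ (η / 2) := by
    rw [← Real.rpow_add hn0]
    congr 1
    ring
  rw [h4]
  have h5 : D ≤ c * (n : ℝ) ^ (η / 2) := by
    rw [div_le_iff₀ hc] at hn1
    linarith
  have h7 : (0 : ℝ) < (n : ℝ) ^ (ρ - η) := Real.rpow_pos_of_pos hn0 _
  calc D * (n : ℝ) ^ (ρ - η) ≤ (c * (n : ℝ) ^ (η / 2)) * (n : ℝ) ^ (ρ - η) :=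
        mul_le_mul_of_nonneg_right h5 h7.le
    _ = _ := by ring

theorem epsStar_eq (r : ℕ) (hr : 1 ≤ r) (σ : Fin r → ℕ) (hσ : 2 ≤ ∏ i, σ i) (t : ℕ)
    (ht : ((∏ i, σ i) - 1).factorial < t) :
    IsGreatest {ε : ℝ | 0 < ε ∧ Forces (sizes σ t) ε} (1 / ((∏ i, σ i : ℕ) : ℝ)) := by
  obtain ⟨c, C, hc, hC, hup, -⟩ := bounds r hr σ hσ
  have hlow := lower_eta r hr σ hσ t ht
  obtain ⟨s, hs⟩ : ∃ s, s = ∏ i, σ i := ⟨_, rfl⟩
  rw [← hs] at hσ ht hup hlow ⊢
  have hs0 : (0 : ℝ) < s := by exact_mod_cast (by omega : 0 < s)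
  have ht1 : 1 ≤ t := by omega
  have htR : (0 : ℝ) < t := by exact_mod_cast ht1
  have hT : (0 : ℝ) < (t : ℝ) ^ (1 / (s : ℝ)) := Real.rpow_pos_of_pos htR _
  refine ⟨⟨by positivity, C * (t : ℝ) ^ (1 / (s : ℝ)) + 1, by positivity, ?_⟩, ?_⟩
  · intro n hn H hH hle
    by_contra hno
    have h1 := hup t n ht1 hn H hH hno
    have hn0 : (0 : ℝ) < n := by exact_mod_cast hn
    have h2 : (0 : ℝ) < (n : ℝ) ^ ((r : ℝ) + 1 - 1 / (s : ℝ)) := Real.rpow_pos_of_pos hn0 _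
    nlinarith
  · rintro ε ⟨hε, D, hD, hF⟩
    by_contra hcon
    rw [not_le] at hcon
    obtain ⟨n, hn1, hn2⟩ := ((hlow (ε - 1 / (s : ℝ)) (by linarith) D hD).and
      (Filter.eventually_ge_atTop 1)).exists
    obtain ⟨H, h1, h2, h3⟩ := hn1
    apply h2
    refine hF n hn2 H h1 ?_
    have h4 : (r : ℝ) + 1 - 1 / (s : ℝ) - (ε - 1 / (s : ℝ)) = (r : ℝ) + 1 - ε := by ring
    rwa [h4] at h3

/-- **Theorem.** Let `r ≥ 1`.
1. Let `σ : Fin r → ℕ`, `s = ∏ σ ≥ 2`. There are `c, C > 0` (depending on `r` and `σ` only) such that the Turán number of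
`K(σ 0, …, σ (r - 1), t)` is at most `C t ^ (1 / s) n ^ (r + 1 - 1 / s)` for all `t, n ≥ 1` (Erdős), and at least
`c t ^ (1 / s) n ^ (r + 1 - 1 / s)` for all `t > (s - 1)! r ^ (s - 1)` and `n ≥ t`.
2. For all `t > (s - 1)!` the exponent `ε*` of `K(σ 0, …, σ (r - 1), t)` is `1 / s`, it is attained, and for every
`η > 0` the Turán number is at least `n ^ (r + 1 - 1 / s - η)` for all large `n`.
3. In particular, for `k ≥ 2` and `t > (k ^ r - 1)!`, the exponent `ε*` of `K(k, …, k, t)` is `1 / k ^ r`. -/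
theorem result (r : ℕ) (hr : 1 ≤ r) :
    (∀ σ : Fin r → ℕ, 2 ≤ ∏ i, σ i →
      (∃ c C : ℝ, 0 < c ∧ 0 < C ∧
        (∀ t n : ℕ, 1 ≤ t → 1 ≤ n → (ex n (sizes σ t) : ℝ) ≤
          C * (t : ℝ) ^ (1 / ((∏ i, σ i : ℕ) : ℝ)) *
            (n : ℝ) ^ ((r : ℝ) + 1 - 1 / ((∏ i, σ i : ℕ) : ℝ))) ∧
        (∀ t n : ℕ, ((∏ i, σ i) - 1).factorial * r ^ ((∏ i, σ i) - 1) < t → t ≤ n →
          c * (t : ℝ) ^ (1 / ((∏ i, σ i : ℕ) : ℝ)) *
            (n : ℝ) ^ ((r : ℝ) + 1 - 1 / ((∏ i, σ i : ℕ) : ℝ)) ≤ ex n (sizes σ t))) ∧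
      ∀ t : ℕ, ((∏ i, σ i) - 1).factorial < t →
        Forces (sizes σ t) (1 / ((∏ i, σ i : ℕ) : ℝ)) ∧
        epsStar (sizes σ t) = 1 / ((∏ i, σ i : ℕ) : ℝ) ∧
        ∀ η : ℝ, 0 < η → ∀ᶠ n : ℕ in Filter.atTop,
          (n : ℝ) ^ ((r : ℝ) + 1 - 1 / ((∏ i, σ i : ℕ) : ℝ) - η) ≤ ex n (sizes σ t)) ∧
    ∀ k t : ℕ, 2 ≤ k → (k ^ r - 1).factorial < t →
      epsStar (sizes (fun _ : Fin r => k) t) = 1 / (k : ℝ) ^ r := by
  refine ⟨fun σ hσ => ⟨?_, fun t ht => ?_⟩, fun k t hk ht => ?_⟩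
  · obtain ⟨c, C, hc, hC, hup, hlow⟩ := bounds r hr σ hσ
    refine ⟨c, C, hc, hC, fun t n ht hn => ex_le (by positivity) (hup t n ht hn), fun t n ht htn => ?_⟩
    obtain ⟨H, h1, h2, h3⟩ := hlow t n ht htn
    exact h3.trans (by exact_mod_cast le_ex h1 h2)
  · have h := epsStar_eq r hr σ hσ t ht
    refine ⟨h.1.2, h.csSup_eq, fun η hη => ?_⟩
    filter_upwards [lower_eta r hr σ hσ t ht η hη 1 one_pos] with n hn
    obtain ⟨H, h1, h2, h3⟩ := hn
    rw [one_mul] at h3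
    exact h3.trans (by exact_mod_cast le_ex h1 h2)
  · have hp : ∏ _i : Fin r, k = k ^ r := by
      rw [Finset.prod_const, Finset.card_univ, Fintype.card_fin]
    have h2 : 2 ≤ ∏ _i : Fin r, k := by
      rw [hp]
      calc 2 ≤ k ^ 1 := by rw [pow_one]; exact hk
        _ ≤ k ^ r := Nat.pow_le_pow_right (by omega) hr
    have h := epsStar_eq r hr (fun _ => k) h2 t (by rw [hp]; exact ht)
    rw [hp] at h
    have h3 := h.csSup_eq
    push_cast at h3
    exact h3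

end Pool.Agent.Results.MP_ffb1b1_co.NormHypergraphs
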